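import Pool.Agent.MP_fcd29e_an.H81.Spec

/-!
The weighted estimate on the concave side, from the pointwise inequality and the vanishing of the
integral of the flux.
-/

set_option autoImplicit false

open Pool.Agent.MP_fcd29e_an.H81 MeasureTheory Complex Set Filter Topology Metric
open scoped ContDiff ComplexConjugate ENNReal NNReal

namespace Pool.Agent.MP_fcd29e_an.H78

/-- A summand of integral zero can be dropped from an inequality. -/
theorem lint_le {X : Type*} [MeasurableSpace X] {μ : Measure X} {A B g : X → ℝ}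
    (hg : Integrable g μ) (h0 : ∫ x, g x ∂μ = 0)
    (h : ∀ᵐ x ∂μ, 0 ≤ A x ∧ 0 ≤ B x ∧ A x + g x ≤ B x) :
    ∫⁻ x, ENNReal.ofReal (A x) ∂μ ≤ ∫⁻ x, ENNReal.ofReal (B x) ∂μ := by
  have hp : AEMeasurable (fun x => ENNReal.ofReal (g x)) μ :=
    hg.aemeasurable.ennreal_ofReal
  have hn : AEMeasurable (fun x => ENNReal.ofReal (-g x)) μ :=
    hg.aemeasurable.neg.ennreal_ofReal
  have fp : ∫⁻ x, ENNReal.ofReal (g x) ∂μ ≠ ⊤ := hg.lintegral_lt_top.ne
  have fn : ∫⁻ x, ENNReal.ofReal (-g x) ∂μ ≠ ⊤ := hg.neg.lintegral_lt_top.ne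
  have e : ∫⁻ x, ENNReal.ofReal (g x) ∂μ = ∫⁻ x, ENNReal.ofReal (-g x) ∂μ := by
    rw [integral_eq_lintegral_pos_part_sub_lintegral_neg_part hg, sub_eq_zero] at h0
    exact (ENNReal.toReal_eq_toReal_iff' fp fn).1 h0
  have key : ∫⁻ x, (ENNReal.ofReal (A x) + ENNReal.ofReal (g x)) ∂μ ≤
      ∫⁻ x, (ENNReal.ofReal (B x) + ENNReal.ofReal (-g x)) ∂μ := by
    refine lintegral_mono_ae (h.mono fun x ⟨hA, hB, hx⟩ => ?_)
    rcases le_total 0 (g x) with hx0 | hx0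
    · rw [← ENNReal.ofReal_add hA hx0]
      exact (ENNReal.ofReal_le_ofReal hx).trans le_self_add
    · rw [ENNReal.ofReal_of_nonpos hx0, add_zero, ← ENNReal.ofReal_add hB (by linarith)]
      exact ENNReal.ofReal_le_ofReal (by linarith)
  rw [lintegral_add_right' _ hp, lintegral_add_right' _ hn, e] at key
  exact (ENNReal.add_le_add_iff_right fn).1 key

/-- The cut-off in the normal variable. -/
theorem cutoff {r : ℝ} (hr : 0 < r) : ∃ χ : ℝ → ℝ, ∃ D : ℝ, 0 ≤ D ∧ ContDiff ℝ ∞ χ ∧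
    (∀ s, 0 ≤ χ s ∧ χ s ≤ 1) ∧ (∀ s < r / 2, χ s = 1 ∧ deriv χ s = 0) ∧
    (∀ s, 3 * r / 4 ≤ s → χ s = 0) ∧ ∀ s ∈ Icc 0 r, |deriv χ s| ≤ D := by
  have hs : ContDiff ℝ ∞ fun s : ℝ => Real.smoothTransition (3 - 4 * s / r) :=
    Real.smoothTransition.contDiff.comp (by fun_prop)
  have h1 : ∀ s < r / 2, Real.smoothTransition (3 - 4 * s / r) = 1 := fun s h =>
    Real.smoothTransition.one_of_one_le (by
      have : 4 * s / r ≤ 2 := by rw [div_le_iff₀ hr]; linarith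
      linarith)
  obtain ⟨D, hD⟩ := isCompact_Icc.exists_bound_of_continuousOn
    (s := Icc (0 : ℝ) r) ((hs.continuous_deriv (by simp)).continuousOn)
  refine ⟨_, D, (norm_nonneg _).trans (hD 0 ⟨le_rfl, hr.le⟩), hs,
    fun s => ⟨Real.smoothTransition.nonneg _, Real.smoothTransition.le_one _⟩,
    fun s h => ⟨h1 s h, ?_⟩, fun s h => Real.smoothTransition.zero_of_nonpos ?_, hD⟩
  · have : (fun s : ℝ => Real.smoothTransition (3 - 4 * s / r)) =ᶠ[𝓝 s] fun _ => 1 :=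
      Filter.mem_of_superset (Iio_mem_nhds h) fun y hy => h1 y hy
    rw [this.deriv_eq]; simp
  · have : 3 ≤ 4 * s / r := by rw [le_div_iff₀ hr]; linarith
    linarith

theorem hasDerivAt_f0 (m p : ℕ) {ε s : ℝ} (hε : 0 < ε) (hs : 0 < s) :
    HasDerivAt (fun s : ℝ => s ^ (m + 1) / (s + ε) ^ (p + 1))
      (s ^ (m + 1) / (s + ε) ^ (p + 1) * ((m + 1) / s - (p + 1) / (s + ε))) s := by
  have h0 : s + ε ≠ 0 := by positivity
  have h := (hasDerivAt_pow (m + 1) s).div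
    (((hasDerivAt_id' s).add_const ε).pow (p + 1)) (pow_ne_zero _ h0)
  refine HasDerivAt.congr_deriv h ?_
  simp only [Nat.add_sub_cancel, Pi.pow_apply]
  push_cast
  field_simp
  ring

/-- The weight in the normal variable. -/
theorem weight {r : ℝ} (hr : 0 < r) (hr1 : r ≤ 1) (k a : ℕ) : ∃ D : ℝ, 0 ≤ D ∧ ∀ ε > 0,
    ∃ (f : ℝ → ℝ) (B : ℝ), ContDiffOn ℝ ∞ f (Ioi 0) ∧ (∀ s, 3 * r / 4 ≤ s → f s = 0) ∧
      (∀ s > 0, s ≤ r → |f s| ≤ B * s ^ (2 * a + 2) ∧ |deriv f s| ≤ B * s ^ (2 * a + 1)) ∧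
      ∀ s > 0, 0 ≤ f s ∧ f s ≤ s ^ (2 * k) ∧
        (s < r / 2 → f s = s ^ (2 * k) * (s / (s + ε)) ^ (2 * a + 2)) ∧
        (s ≤ r → ∀ Λ C M : ℝ, 0 ≤ C → -(C * s) ≤ Λ → |Λ| ≤ M →
          -(deriv f s * Λ) ≤ C * (2 * k + 2 * a + 2) * f s + if r / 2 ≤ s then D * M else 0) := by
  obtain ⟨χ, D, hD, hχ, hb, h1, h0, hd⟩ := cutoff hr
  refine ⟨D, hD, fun ε hε => ?_⟩
  set g : ℝ → ℝ := fun s => s ^ (2 * k + 2 * a + 1 + 1) / (s + ε) ^ (2 * a + 1 + 1) with hg
  have ge : ∀ s > 0, g s = s ^ (2 * k) * (s / (s + ε)) ^ (2 * a + 2) := fun s hs => by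
    simp only [hg, div_pow]; ring
  have g0 : ∀ s > 0, 0 ≤ g s := fun s hs => by simp only [hg]; positivity
  have g1 : ∀ s > 0, g s ≤ s ^ (2 * k) := fun s hs => by
    rw [ge s hs]
    refine mul_le_of_le_one_right (by positivity) (pow_le_one₀ (by positivity) ?_)
    rw [div_le_one (by positivity)]; linarith
  have g2 : ∀ s > 0, s ≤ r → g s ≤ s ^ (2 * a + 2) / ε ^ (2 * a + 2) := fun s hs hsr => by
    rw [ge s hs, ← div_pow]
    refine (mul_le_of_le_one_left (by positivity) (pow_le_one₀ hs.le (hsr.trans hr1))).trans ?_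
    exact pow_le_pow_left₀ (by positivity) (div_le_div_of_nonneg_left hs.le hε (by linarith)) _
  have gd : ∀ s > 0, ∃ q : ℝ, 0 ≤ q ∧ q * s ≤ 2 * k + 2 * a + 2 ∧
      deriv (fun s => g s * χ s) s = g s * q * χ s + g s * deriv χ s := fun s hs => by
    have h := (hasDerivAt_f0 (2 * k + 2 * a + 1) (2 * a + 1) hε hs).mul
      ((hχ.differentiable (by simp)) s).hasDerivAt
    refine ⟨_, ?_, ?_, h.deriv⟩
    · push_cast
      rw [sub_nonneg, div_le_div_iff₀ (by positivity) hs]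
      have : (0 : ℝ) ≤ k := by positivity
      have : (0 : ℝ) ≤ a := by positivity
      nlinarith [mul_nonneg ‹(0 : ℝ) ≤ k› hs.le, mul_nonneg ‹(0 : ℝ) ≤ k› hε.le,
        mul_nonneg ‹(0 : ℝ) ≤ a› hε.le]
    · push_cast
      rw [sub_mul, div_mul_cancel₀ _ hs.ne']
      have : 0 ≤ (2 * (a : ℝ) + 1 + 1) / (s + ε) * s := by positivity
      linarith
  refine ⟨fun s => g s * χ s, (2 * k + 2 * a + 2 + D + 1) / ε ^ (2 * a + 2), ?_,
    fun s h => by simp [h0 s h], fun s hs hsr => ?_, fun s hs => ⟨?_, ?_, fun h => ?_, ?_⟩⟩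
  · refine ContDiffOn.mul (ContDiffOn.div (by fun_prop) (by fun_prop) fun s hs => ?_) hχ.contDiffOn
    have : (0 : ℝ) < s := hs
    positivity
  · have hs1 : s ≤ 1 := hsr.trans hr1
    have e1 : g s ≤ s * (s ^ (2 * a + 1) / ε ^ (2 * a + 2)) := by
      refine (g2 s hs hsr).trans_eq (by ring)
    have hP : 0 ≤ s ^ (2 * a + 1) / ε ^ (2 * a + 2) := by positivity
    have hm : (0 : ℝ) ≤ 2 * k + 2 * a + 2 := by positivity
    constructor
    · rw [abs_of_nonneg (mul_nonneg (g0 s hs) (hb s).1)]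
      refine (mul_le_of_le_one_right (g0 s hs) (hb s).2).trans ((g2 s hs hsr).trans ?_)
      rw [div_mul_eq_mul_div]
      gcongr
      exact le_mul_of_one_le_left (by positivity) (by linarith)
    · obtain ⟨q, q0, q1, hq⟩ := gd s hs
      rw [hq]
      have b1 : |g s * q * χ s| ≤ (2 * k + 2 * a + 2) * (s ^ (2 * a + 1) / ε ^ (2 * a + 2)) := by
        rw [abs_of_nonneg (mul_nonneg (mul_nonneg (g0 s hs) q0) (hb s).1)]
        refine (mul_le_of_le_one_right (mul_nonneg (g0 s hs) q0) (hb s).2).trans ?_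
        calc g s * q ≤ s * (s ^ (2 * a + 1) / ε ^ (2 * a + 2)) * q := by gcongr
          _ = q * s * (s ^ (2 * a + 1) / ε ^ (2 * a + 2)) := by ring
          _ ≤ _ := by gcongr
      have b2 : |g s * deriv χ s| ≤ D * (s ^ (2 * a + 1) / ε ^ (2 * a + 2)) := by
        rw [abs_mul, abs_of_nonneg (g0 s hs), mul_comm]
        exact mul_le_mul (hd s ⟨hs.le, hsr⟩) (e1.trans (mul_le_of_le_one_left hP hs1)) (g0 s hs) hD
      refine (abs_add_le _ _).trans ((add_le_add b1 b2).trans ?_)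
      rw [div_mul_eq_mul_div, mul_div_assoc]
      nlinarith
  · exact mul_nonneg (g0 s hs) (hb s).1
  · exact (mul_le_of_le_one_right (g0 s hs) (hb s).2).trans (g1 s hs)
  · simp only [(h1 s h).1, mul_one, ge s hs]
  · intro hsr Λ C M hC hΛ hM
    obtain ⟨q, q0, q1, hq⟩ := gd s hs
    rw [hq]
    have hf : 0 ≤ g s * χ s := mul_nonneg (g0 s hs) (hb s).1
    have b1 : -(g s * q * χ s * Λ) ≤ C * (2 * k + 2 * a + 2) * (g s * χ s) := by
      calc -(g s * q * χ s * Λ) = g s * χ s * q * -Λ := by ring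
        _ ≤ g s * χ s * q * (C * s) := by gcongr; linarith
        _ = C * (q * s) * (g s * χ s) := by ring
        _ ≤ _ := by gcongr
    have b2 : -(g s * deriv χ s * Λ) ≤ if r / 2 ≤ s then D * M else 0 := by
      split_ifs with h
      · refine (neg_le_abs _).trans ?_
        rw [abs_mul, abs_mul, abs_of_nonneg (g0 s hs)]
        refine mul_le_mul ?_ hM (abs_nonneg _) hD
        exact (mul_le_of_le_one_left (abs_nonneg _)
          ((g1 s hs).trans (pow_le_one₀ hs.le (hsr.trans hr1)))).trans (hd s ⟨hs.le, hsr⟩)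
      · simp [(h1 s (not_le.1 h)).2]
    linarith

/-- The flux vanishes where the weight does. -/
theorem div_zero {N : ℕ} {f κ : ℝ → ℝ} {t : ℝ} {ρ φ : E N → ℝ} {w : E N → ℂ} {z : E N}
    (h : ∀ᶠ y in 𝓝 z, f (ρ y) * κ (‖y‖ ^ 2) = 0) :
    ∑ l, dz l (FA f κ t ρ φ w l) z + ∑ l, dzb l (FB f κ t ρ φ w l) z = 0 := by
  have hA : ∀ l, FA f κ t ρ φ w l =ᶠ[𝓝 z] fun _ => 0 := fun l =>
    h.mono fun y hy => by simp only [FA, Wt, hy]; simp
  have hB : ∀ l, FB f κ t ρ φ w l =ᶠ[𝓝 z] fun _ => 0 := fun l =>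
    h.mono fun y hy => by simp only [FB, Wt, hy]; simp
  simp [dz_congr (hA _), dzb_congr (hB _)]

/-- The arithmetic of the pointwise inequality. -/
theorem arith {d F κ e E S W C₃ C c t T x Λ m R : ℝ} (hF : 0 ≤ F) (hκ : 0 ≤ κ) (he : 0 < e)
    (hS : 0 ≤ S) (hW : 0 ≤ W) (hR : 0 ≤ R) (ht : 0 ≤ t) (hT : c ≤ T)
    (h1 : e ≤ E) (h2 : 1 ≤ E * e) (htc : t * c = 1 + |C₃| + C * m)
    (hx : -(x * Λ) ≤ C * m * F + R)
    (h : d ≤ F * κ * e * (C₃ * S - (t * T - C₃) * W) - x * κ * e * Λ * W) :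
    F * κ * W + E * d ≤ E ^ 2 * (|C₃| * (F * κ * S) + R * (κ * W)) := by
  have hE : 0 < E := he.trans_le h1
  have a1 : C₃ * S - (t * T - C₃) * W ≤ |C₃| * S - (1 + C * m) * W := by
    have := le_abs_self C₃
    have : t * c ≤ t * T := by gcongr
    nlinarith
  have a2 : -(x * κ * e * Λ * W) ≤ (C * m * F + R) * (κ * e * W) := by
    calc -(x * κ * e * Λ * W) = -(x * Λ) * (κ * e * W) := by ring
      _ ≤ _ := by gcongr
  have a3 : d ≤ e * (|C₃| * (F * κ * S) + R * (κ * W)) - e * (F * κ * W) := by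
    have : F * κ * e * (C₃ * S - (t * T - C₃) * W) ≤
        F * κ * e * (|C₃| * S - (1 + C * m) * W) := by gcongr
    nlinarith
  have hX : 0 ≤ |C₃| * (F * κ * S) + R * (κ * W) := by positivity
  have hY : 0 ≤ F * κ * W := by positivity
  have a4 : E * d ≤ E * (e * (|C₃| * (F * κ * S) + R * (κ * W)) - e * (F * κ * W)) := by gcongr
  have a5 : E * e * (|C₃| * (F * κ * S) + R * (κ * W)) ≤
      E ^ 2 * (|C₃| * (F * κ * S) + R * (κ * W)) := by
    rw [sq]; gcongr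
  nlinarith

theorem est (L : Lv0) (h3 : StmtE3) (h4 : StmtE4) : StmtEst := by
  intro N ρ φ hρ hφ κ hκ
  obtain ⟨-, hO, -, hcone, hmeas, ⟨B, hB⟩, -, -, -, -, hc, -⟩ := L.c1 N ρ hρ
  obtain ⟨r, hr, hr1, c, hc0, C₁, hcol⟩ := hc φ hφ
  obtain ⟨-, hts, hSh, h0S, -⟩ := (L.t3.2 N).1 κ hκ
  obtain ⟨hEu, -, -, hpf⟩ := L.pf N
  obtain ⟨hRo, -, -, -, htr, -⟩ := hpf ρ hρ
  have hSI : SI ρ φ := ⟨hφ.smooth, hφ.inv⟩
  have ρc : ∀ z : E N, z ≠ 0 → ContDiffAt ℝ ∞ ρ z := fun z hz =>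
    hρ.smooth.contDiffAt (isOpen_E0.mem_nhds hz)
  set K : Set (E N) := Sh N ∩ ρ ⁻¹' Icc 0 r with hK
  have Kc : IsCompact K := by
    refine hSh.of_isClosed_subset (ContinuousOn.preimage_isClosed_of_isClosed ?_ hSh.isClosed
      isClosed_Icc) inter_subset_left
    exact fun z hz => (ρc z fun h => h0S (h ▸ hz)).continuousAt.continuousWithinAt
  have KR : K ⊆ Reg ρ := fun z hz => (hcol z hz.1 hz.2.1 hz.2.2).1
  obtain ⟨C₃, hC₃⟩ := h3 N ρ φ hρ hSI K KR Kc
  obtain ⟨M, hM⟩ := Kc.exists_bound_of_continuousOn (hφ.smooth.continuousOn.mono KR)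
  obtain ⟨M', hM'⟩ := Kc.exists_bound_of_continuousOn (f := trH ρ ρ) fun z hz =>
    (htr z (KR hz) ρ (ρc z (KR hz).1)).2.2.1.continuousAt.continuousWithinAt
  refine ⟨r / 2, by positivity, fun k a j => ?_⟩
  obtain ⟨D, hD, hw⟩ := weight hr hr1 k a
  set m : ℝ := 2 * k + 2 * a + 2 with hm
  have m0 : 0 ≤ m := by positivity
  set t : ℝ := (1 + |C₃| + |C₁| * m) / c with ht
  have t0 : 0 ≤ t := by positivity
  have tc : t * c = 1 + |C₃| + |C₁| * m := div_mul_cancel₀ _ hc0.ne'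
  set e : ℝ := Real.exp (t * M) with he
  have e0 : 0 < e := Real.exp_pos _
  set C : ℝ := e ^ 2 * (|C₃| + D * |M'|) + B ^ (2 * k) with hC
  have B0 : 0 ≤ B ^ (2 * k) := by rw [pow_mul']; positivity
  have C0 : 0 ≤ C := by positivity
  refine ⟨C.toNNReal, fun w hT hH => ?_⟩
  set S : Set (E N) := {z | r / 2 ≤ ρ z} with hS
  have Sm : MeasurableSet S := measurableSet_le measurable_const hmeas
  have wc : ∀ z ∈ Op ρ, ContDiffAt ℝ ∞ w z := fun z hz => hT.1.contDiffAt (hO.mem_nhds hz)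
  have κc : Continuous fun z : E N => κ (‖z‖ ^ 2) := hκ.smooth.continuous.comp (by fun_prop)
  have κ0 := hκ.nonneg
  -- the right-hand side
  set G : E N → ℝ := fun z => ∑ l, κ (‖z‖ ^ 2) * ρ z ^ (2 * k) * ‖dzb l w z‖ ^ 2 +
    S.indicator (fun z => κ (‖z‖ ^ 2) * ‖w z‖ ^ 2) z with hG
  have p0 : ∀ z, 0 ≤ ρ z ^ (2 * k) := fun z => by rw [pow_mul']; positivity
  have q0 : ∀ l z, 0 ≤ κ (‖z‖ ^ 2) * ρ z ^ (2 * k) * ‖dzb l w z‖ ^ 2 := fun l z =>
    mul_nonneg (mul_nonneg (κ0 _) (p0 z)) (sq_nonneg _)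
  have i0 : ∀ z, 0 ≤ S.indicator (fun z => κ (‖z‖ ^ 2) * ‖w z‖ ^ 2) z := fun z =>
    indicator_nonneg (fun y _ => mul_nonneg (κ0 _) (sq_nonneg _)) z
  have G0 : ∀ z, 0 ≤ G z := fun z => add_nonneg (Finset.sum_nonneg fun l _ => q0 l z) (i0 z)
  have hGI : ∫⁻ z in Op ρ, ENNReal.ofReal (C * G z) ≤ C.toNNReal *
      ((∑ l, ∫⁻ z in Op ρ, ENNReal.ofReal (κ (‖z‖ ^ 2) * ρ z ^ (2 * k) * ‖dzb l w z‖ ^ 2)) +
        ∫⁻ z in S, ENNReal.ofReal (κ (‖z‖ ^ 2) * ‖w z‖ ^ 2)) := by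
    have me : ∀ l, AEMeasurable
        (fun z => ENNReal.ofReal (κ (‖z‖ ^ 2) * ρ z ^ (2 * k) * ‖dzb l w z‖ ^ 2))
        (volume.restrict (Op ρ)) := fun l => by
      have : ContinuousOn (dzb l w) (Op ρ) := fun z hz =>
        (contDiffAt_dzb l (wc z hz)).continuousAt.continuousWithinAt
      exact ((κc.measurable.mul (hmeas.pow_const _)).aemeasurable.mul
        ((this.aemeasurable hO.measurableSet).norm.pow_const 2)).ennreal_ofReal
    have e1 : ∀ z, ENNReal.ofReal (C * G z) = ENNReal.ofReal C *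
        (∑ l, ENNReal.ofReal (κ (‖z‖ ^ 2) * ρ z ^ (2 * k) * ‖dzb l w z‖ ^ 2) +
          S.indicator (fun z => ENNReal.ofReal (κ (‖z‖ ^ 2) * ‖w z‖ ^ 2)) z) := fun z => by
      rw [ENNReal.ofReal_mul C0, hG, ENNReal.ofReal_add (Finset.sum_nonneg fun l _ => q0 l z) (i0 z),
        ENNReal.ofReal_sum_of_nonneg fun l _ => q0 l z]
      by_cases hz : z ∈ S <;> simp [hz]
    simp only [e1]
    rw [lintegral_const_mul' _ _ ENNReal.ofReal_ne_top,
      lintegral_add_left' (Finset.aemeasurable_fun_sum _ fun l _ => me l),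
      lintegral_finsetSum' _ fun l _ => me l]
    refine mul_le_mul' le_rfl (add_le_add le_rfl ?_)
    rw [← lintegral_indicator Sm]
    exact lintegral_mono' Measure.restrict_le_self le_rfl
  refine le_trans ?_ hGI
  -- the estimate for each `ε`
  have key : ∀ ε > 0, ∫⁻ z in Op ρ, ENNReal.ofReal (κ (‖z‖ ^ 2) * ρ z ^ (2 * k) * ‖w z‖ ^ 2 *
      (ρ z / (ρ z + ε)) ^ (2 * a + 2)) ≤ ∫⁻ z in Op ρ, ENNReal.ofReal (C * G z) := by
    intro ε hε
    obtain ⟨f, B', fs, f0, fb, fp⟩ := hw ε hε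
    obtain ⟨hI, hI0⟩ := h4 N ρ φ hρ hSI κ f hκ r (3 * r / 4) t B' a w (by linarith)
      (fun z hz h1 h2 => (hcol z hz h1 h2).1) fs f0 fb hT
    set d : E N → ℂ := fun z =>
      ∑ l, dz l (FA f κ t ρ φ w l) z + ∑ l, dzb l (FB f κ t ρ φ w l) z with hd
    refine lint_le (g := fun z => e * (d z).re) (hI.re.const_mul e) ?_ ?_
    · rw [integral_const_mul]
      have := integral_re hI
      simp only [RCLike.re_to_complex] at this
      rw [this, hI0]; simp
    refine (ae_restrict_iff' hO.measurableSet).2 (Eventually.of_forall fun z hz => ?_)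
    have hz0 : 0 < ρ z := hz.2
    obtain ⟨fp0, fp1, fp2, fp3⟩ := fp (ρ z) hz0
    have u0 : 0 ≤ (ρ z / (ρ z + ε)) ^ (2 * a + 2) := by positivity
    have u1 : (ρ z / (ρ z + ε)) ^ (2 * a + 2) ≤ 1 := by
      refine pow_le_one₀ (by positivity) ?_
      rw [div_le_one (by positivity)]; linarith
    have κz := κ0 (‖z‖ ^ 2)
    have pz := p0 z
    refine ⟨by positivity, mul_nonneg C0 (G0 z), ?_⟩
    set I : ℝ := S.indicator (fun z => κ (‖z‖ ^ 2) * ‖w z‖ ^ 2) z with hI'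
    have I0 : 0 ≤ I := i0 z
    set Q : ℝ := ∑ l, ‖dzb l w z‖ ^ 2 with hQ
    have Q0 : 0 ≤ Q := by positivity
    have eG : G z = κ (‖z‖ ^ 2) * ρ z ^ (2 * k) * Q + I := by
      rw [hG, hQ, Finset.mul_sum]
    have s1 : κ (‖z‖ ^ 2) * ρ z ^ (2 * k) * ‖w z‖ ^ 2 * (ρ z / (ρ z + ε)) ^ (2 * a + 2) ≤
        f (ρ z) * κ (‖z‖ ^ 2) * ‖w z‖ ^ 2 + B ^ (2 * k) * I := by
      by_cases hs : r / 2 ≤ ρ z
      · have : I = κ (‖z‖ ^ 2) * ‖w z‖ ^ 2 := indicator_of_mem (s := S) hs _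
        have hb : ρ z ^ (2 * k) ≤ B ^ (2 * k) :=
          pow_le_pow_left₀ hz0.le ((le_abs_self _).trans (hB z)) _
        refine le_add_of_nonneg_of_le (by positivity) ?_
        refine (mul_le_of_le_one_right (by positivity) u1).trans ?_
        rw [this]
        calc κ (‖z‖ ^ 2) * ρ z ^ (2 * k) * ‖w z‖ ^ 2 =
            ρ z ^ (2 * k) * (κ (‖z‖ ^ 2) * ‖w z‖ ^ 2) := by ring
          _ ≤ _ := by gcongr
      · rw [fp2 (not_le.1 hs)]
        refine le_add_of_le_of_nonneg (le_of_eq (by ring)) (by positivity)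
    have s2 : f (ρ z) * κ (‖z‖ ^ 2) * ‖w z‖ ^ 2 + e * (d z).re ≤
        e ^ 2 * (|C₃| * (κ (‖z‖ ^ 2) * ρ z ^ (2 * k) * Q) + D * |M'| * I) := by
      by_cases hzK : z ∈ K
      · obtain ⟨-, c1, c2⟩ := hcol z hzK.1 hzK.2.1 hzK.2.2
        have hx := fp3 hzK.2.2 (trH ρ ρ z) |C₁| |M'| (abs_nonneg _)
          ((neg_le_neg (mul_le_mul_of_nonneg_right (le_abs_self _) hz0.le)).trans c2)
          ((hM' z hzK).trans (le_abs_self _))
        have hE : ∑ l, z l * dz l w z = -(j : ℂ) * w z := by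
          have := ((hEu (Op ρ) (-j) 0 w hO hcone hH).2 z hz (ContDiffAt.da (wc z hz))).1
          simpa using this
        have h := hC₃ t f κ w j z hzK
          ((fs.contDiffAt (Ioi_mem_nhds hz0)).differentiableAt (by simp))
          (hκ.smooth.differentiable (by simp) _) fp0 κz (wc z hz) hE
        have b := abs_le.1 (hM z hzK)
        have R0 : 0 ≤ if r / 2 ≤ ρ z then D * |M'| else 0 := by split_ifs <;> positivity
        have := arith (E := e) fp0 κz (Real.exp_pos (t * φ z)) Q0 (sq_nonneg ‖w z‖) R0 t0 c1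
          (Real.exp_le_exp.2 (by gcongr; exact b.2))
          (by
            rw [he, ← Real.exp_add, ← mul_add]
            exact Real.one_le_exp (mul_nonneg t0 (by linarith [b.1]))) tc hx h
        refine this.trans ?_
        have e2 : (if r / 2 ≤ ρ z then D * |M'| else 0) * (κ (‖z‖ ^ 2) * ‖w z‖ ^ 2) =
            D * |M'| * I := by
          split_ifs with hs
          · rw [hI', indicator_of_mem (s := S) hs]
          · rw [hI', indicator_of_notMem (s := S) hs]; simp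
        rw [e2, mul_comm (κ _) (ρ z ^ _)]
        gcongr
      · have hv : ∀ᶠ y in 𝓝 z, f (ρ y) * κ (‖y‖ ^ 2) = 0 := by
          by_cases hzS : z ∈ Sh N
          · have : r < ρ z := by
              by_contra hn
              exact hzK ⟨hzS, hz0.le, not_lt.1 hn⟩
            filter_upwards [(ρc z hz.1).continuousAt.eventually (Ioi_mem_nhds this)] with y hy
            rw [f0 (ρ y) (by have : r < ρ y := hy; linarith), zero_mul]
          · filter_upwards [hSh.isClosed.isOpen_compl.mem_nhds hzS] with y hy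
            have : (κ (‖y‖ ^ 2) : ℂ) = 0 :=
              image_eq_zero_of_notMem_tsupport (f := fun z : E N => (κ (‖z‖ ^ 2) : ℂ))
                fun h => hy (hts h)
            rw [ofReal_eq_zero.1 this, mul_zero]
        have d0 : d z = 0 := div_zero hv
        rw [d0, hv.self_of_nhds]
        simp only [zero_mul, zero_re, mul_zero, add_zero]
        positivity
    have X0 : 0 ≤ κ (‖z‖ ^ 2) * ρ z ^ (2 * k) * Q := by positivity
    rw [eG, hC]
    have y1 : 0 ≤ e ^ 2 * (|C₃| * I + D * |M'| * (κ (‖z‖ ^ 2) * ρ z ^ (2 * k) * Q)) := by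
      positivity
    have y2 : 0 ≤ B ^ (2 * k) * (κ (‖z‖ ^ 2) * ρ z ^ (2 * k) * Q) := by positivity
    linarith
  -- Fatou
  have wm : AEMeasurable w (volume.restrict (Op ρ)) :=
    hT.1.continuousOn.aemeasurable hO.measurableSet
  have F := lintegral_liminf_le' (μ := volume.restrict (Op ρ)) (u := atTop)
    (f := fun (n : ℕ) z => ENNReal.ofReal (κ (‖z‖ ^ 2) * ρ z ^ (2 * k) * ‖w z‖ ^ 2 *
      (ρ z / (ρ z + 1 / ((n : ℝ) + 1))) ^ (2 * a + 2))) fun n =>
    (((κc.measurable.mul (hmeas.pow_const _)).aemeasurable.mul (wm.norm.pow_const 2)).mul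
      ((hmeas.div (hmeas.add_const _)).pow_const _).aemeasurable).ennreal_ofReal
  refine le_trans (le_of_eq ?_) (F.trans (liminf_le_of_frequently_le'
    (Frequently.of_forall fun n => key _ Nat.one_div_pos_of_nat)))
  refine setLIntegral_congr_fun hO.measurableSet fun z hz => ?_
  have hz0 : 0 < ρ z := hz.2
  refine (Tendsto.liminf_eq ?_).symm
  refine ENNReal.tendsto_ofReal ?_
  have l1 : Tendsto (fun n : ℕ => ρ z / (ρ z + 1 / ((n : ℝ) + 1))) atTop (𝓝 1) := by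
    have := (tendsto_const_nhds (x := ρ z)).div
      ((tendsto_const_nhds (x := ρ z)).add tendsto_one_div_add_atTop_nhds_zero_nat)
      (by simpa using hz0.ne')
    rwa [add_zero, div_self hz0.ne'] at this
  simpa using (l1.pow (2 * a + 2)).const_mul (κ (‖z‖ ^ 2) * ρ z ^ (2 * k) * ‖w z‖ ^ 2)

end Pool.Agent.MP_fcd29e_an.H78
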