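import Pool.Agent.MP_fcd29e_an.H81.Spec2

/-!
The a priori estimate with three weights.
-/

set_option autoImplicit false

open Pool.Agent.MP_fcd29e_an.H81 MeasureTheory Complex Set Filter Topology Metric
open scoped ContDiff ComplexConjugate ENNReal NNReal

namespace Pool.Agent.MP_fcd29e_an.H78

variable {N : ℕ} {D K : Set (E N)}

theorem intK (hD : IsOpen D) (hK : IsCompact K) (hKD : K ⊆ D) {c F : E N → ℝ}
    (hc : ContinuousOn c D) (hF : IntegrableOn F K) (h0 : ∀ z ∉ K, c z * F z = 0) :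
    IntegrableOn (fun z => c z * F z) D :=
  (hF.continuousOn_mul (hc.mono hKD) hK).of_forall_sdiff_eq_zero hD.measurableSet
    fun z hz => h0 z hz.2

theorem memK (hK : IsCompact K) (hKD : K ⊆ D) {c X : E N → ℂ}
    (hc : ContinuousOn c D) (h0 : ∀ z ∉ K, c z = 0) (hX : MemLp X 2 (volume.restrict D)) :
    MemLp (fun z => c z * X z) 2 volume := by
  obtain ⟨C, hC⟩ := hK.exists_bound_of_continuousOn (hc.mono hKD)
  have hXK : MemLp X 2 (volume.restrict K) := hX.mono_measure (Measure.restrict_mono hKD le_rfl)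
  have h : MemLp (fun z => c z * X z) 2 (volume.restrict K) := by
    refine hXK.of_le_mul (c := C) (((hc.mono hKD).aestronglyMeasurable hK.measurableSet).mul hXK.1)
      (ae_restrict_of_forall_mem hK.measurableSet fun z hz => ?_)
    rw [norm_mul]
    exact mul_le_mul_of_nonneg_right (hC z hz) (norm_nonneg _)
  rw [← memLp_indicator_iff_restrict hK.measurableSet] at h
  refine h.ae_eq (Eventually.of_forall fun z => Eq.symm ?_)
  by_cases hz : z ∈ K
  · rw [indicator_of_mem hz]
  · simp [indicator_of_notMem hz, h0 z hz]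

theorem off_supp {χ : E N → ℝ} {z : E N} (hz : z ∉ tsupport (cx χ)) :
    χ z = 0 ∧ ∀ j, dz j (cx χ) z = 0 ∧ dzb j (cx χ) z = 0 := by
  have h : cx χ =ᶠ[𝓝 z] fun _ => 0 := notMem_tsupport_iff_eventuallyEq.1 hz
  exact ⟨ofReal_eq_zero.1 h.self_of_nhds, fun j => by simp [dz_congr h, dzb_congr h]⟩

theorem norm3 (a b e : ℂ) : ‖a + b + e‖ ^ 2 ≤ 2 * ‖a‖ ^ 2 + 4 * ‖b‖ ^ 2 + 4 * ‖e‖ ^ 2 := by
  have h : ‖a + b + e‖ ≤ ‖a‖ + ‖b‖ + ‖e‖ := norm_add₃_le
  refine (pow_le_pow_left₀ (norm_nonneg _) h 2).trans ?_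
  nlinarith [sq_nonneg (‖a‖ - ‖b‖ - ‖e‖), sq_nonneg (‖b‖ - ‖e‖)]

theorem test_memLp {ψ : E N → ℂ} (h : Test D ψ) : MemLp ψ 2 volume :=
  h.1.continuous.memLp_of_hasCompactSupport h.2.1

theorem imul {f g : E N → ℂ} (hf : MemLp f 2 volume) (hg : MemLp g 2 volume) :
    Integrable (fun z => f z * g z) (volume.restrict D) := (hf.integrable_mul hg).restrict

theorem memLp_w3 {γ : Fin N → E N → ℂ} {x : Fin N → Fin N → E N → ℂ}
    (h : ∀ a j k, MemLp (fun z => γ a z * x j k z) 2 volume) (i j k : Fin N) :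
    MemLp (fun z => w3 (fun a => γ a z) (fun a b => x a b z) i j k) 2 volume :=
  ((h i j k).sub (h j i k)).add (h k i j)

theorem qq_int (hD : IsOpen D) (hK : IsCompact K) (hKD : K ⊆ D) {φ : E N → ℝ}
    (hφ : ContDiffOn ℝ ∞ φ D) {x : Fin N → Fin N → E N → ℂ}
    (hx : ∀ j k, MemLp (x j k) 2 volume ∧ ∀ z ∉ K, x j k z = 0) :
    IntegrableOn (fun z => QQ φ z (fun j k => x j k z) * Real.exp (-φ z)) D := by
  have hH : ∀ j k, ContinuousOn (dz j (dzb k (cx φ))) K := fun j k z hz =>
    (contDiffAt_dz j (contDiffAt_dzb k (contDiffAt_cx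
      (hφ.contDiffAt (hD.mem_nhds (hKD hz)))))).continuousAt.continuousWithinAt
  have h1 : IntegrableOn (fun z => QQ φ z fun j k => x j k z) K := by
    refine Integrable.sub (IntegrableOn.continuousOn_mul
      (continuous_re.comp_continuousOn (continuousOn_finsetSum _ fun i _ => hH i i))
      (integrable_finsetSum _ fun j _ => integrable_finsetSum _ fun k _ => ?_) hK)
      (Integrable.const_mul (integrable_finsetSum _ fun k _ => Integrable.re (𝕜 := ℂ)
        (integrable_finsetSum _ fun j _ => integrable_finsetSum _ fun l _ => ?_)) 2)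
    · exact ((memLp_two_iff_integrable_sq_norm (hx j k).1.1).1 (hx j k).1).restrict
    · have := IntegrableOn.continuousOn_mul (hH j l)
        ((hx j k).1.star.integrable_mul (hx l k).1.star.star).integrableOn hK
      exact this.congr (Eventually.of_forall fun z => (mul_assoc _ _ _).symm)
  simp only [mul_comm _ (Real.exp _)]
  refine intK hD hK hKD (Real.continuous_exp.comp_continuousOn hφ.continuousOn.neg) h1
    fun z hz => ?_
  simp [QQ, hess, fun j k => (hx j k).2 z hz]

/-- The divergence of the truncated form. -/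
theorem ws_cut (L : Lv0) (hD : IsOpen D) (h0 : (0 : E N) ∉ D) {χ : E N → ℝ} (hχ : Test D (cx χ))
    {x : Fin N → Fin N → E N → ℂ} (hS : WS D x 0)
    (m1 : ∀ j k, MemLp (fun z => cx χ z * x j k z) 2 volume)
    (m2 : ∀ a j k, MemLp (fun z => dzb a (cx χ) z * x j k z) 2 volume) :
    WS D (fun j k z => cx χ z * x j k z) fun k z => ∑ j, dzb j (cx χ) z * x j k z := by
  intro k ψ hψ
  obtain ⟨t1, -, t2, -⟩ := (L.t1 N D hD h0).2.2.2.1 ψ hψ
  have h := hS k _ (t1 (cx χ) hχ.1.contDiffOn)
  have iA : Integrable (fun z => ∑ j, cx χ z * x j k z * dzb j ψ z) (volume.restrict D) :=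
    (integrable_finsetSum _ fun j _ => (m1 j k).integrable_mul (test_memLp (t2 j).2)).restrict
  have iB : Integrable (fun z => (∑ j, dzb j (cx χ) z * x j k z) * ψ z) (volume.restrict D) :=
    ((memLp_finsetSum _ fun j _ => m2 j j k).integrable_mul (test_memLp hψ)).restrict
  rw [eq_neg_iff_add_eq_zero, ← integral_add iA iB]
  simp only [Pi.zero_apply, zero_mul, integral_zero, neg_zero] at h
  rw [← h]
  refine integral_congr_ae (Eventually.of_forall fun z => ?_)
  simp only [Finset.sum_mul, ← Finset.sum_add_distrib]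
  refine Finset.sum_congr rfl fun j _ => ?_
  rw [dzb_mul j (hχ.1.differentiable (by simp) z) (hψ.1.differentiable (by simp) z)]
  ring

/-- The exterior derivative of the truncated form. -/
theorem w3_cut (L : Lv0) (hD : IsOpen D) (h0 : (0 : E N) ∉ D) {χ φ β : E N → ℝ}
    (hχ : Test D (cx χ)) (hφ : ContDiffOn ℝ ∞ φ D) (hβ : ContDiffOn ℝ ∞ β D)
    {x : Fin N → Fin N → E N → ℂ} {Y : Fin N → Fin N → Fin N → E N → ℂ}
    (hW : W3 D (fun j k z => x j k z * (Real.exp (β z - φ z) : ℝ)) Y)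
    (m1 : ∀ j k, MemLp (fun z => cx χ z * x j k z) 2 volume)
    (m2 : ∀ a j k, MemLp (fun z => (dz a (cx χ) z + cx χ z * (dz a (cx φ) z - dz a (cx β) z)) *
      x j k z) 2 volume)
    (m3 : ∀ i j k, MemLp (fun z => cx χ z * (Real.exp (φ z - β z) : ℝ) * Y i j k z) 2 volume) :
    W3 D (fun j k z => cx χ z * x j k z) fun i j k z =>
      cx χ z * (Real.exp (φ z - β z) : ℝ) * Y i j k z +
        w3 (fun a => dz a (cx χ) z + cx χ z * (dz a (cx φ) z - dz a (cx β) z))
          (fun a b => x a b z) i j k := by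
  intro i j k ψ hψ
  obtain ⟨t1, -, t2, -⟩ := (L.t1 N D hD h0).2.2.2.1 ψ hψ
  have es : ContDiffOn ℝ ∞ (cx fun z => Real.exp (φ z - β z)) D := fun z hz =>
    (contDiffAt_cx ((hφ.sub hβ).exp.contDiffAt (hD.mem_nhds hz))).contDiffWithinAt
  have h := hW i j k _ (t1 _ (hχ.1.contDiffOn.mul es))
  have iA : Integrable (fun z => w3 (fun a => dz a ψ z) (fun a b => cx χ z * x a b z) i j k)
      (volume.restrict D) := by
    have : ∀ a j k, Integrable fun z => dz a ψ z * (cx χ z * x j k z) := fun a j k =>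
      (test_memLp (t2 a).1).integrable_mul (m1 j k)
    exact (((this i j k).sub (this j i k)).add (this k i j)).restrict
  have iB := imul (D := D) (memLp_w3 m2 i j k) (test_memLp hψ)
  have iC := imul (D := D) (m3 i j k) (test_memLp hψ)
  simp only [add_mul]
  rw [integral_add iC iB, neg_add, eq_comm, ← sub_eq_add_neg, sub_eq_iff_eq_add,
    ← integral_add iA iB]
  refine Eq.trans ?_ (h.symm.trans ?_)
  · congr 1
    refine integral_congr_ae (Eventually.of_forall fun z => ?_)
    ring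
  refine setIntegral_congr_fun hD.measurableSet fun z hz => ?_
  have dφ := ContDiffAt.da (contDiffAt_cx (hφ.contDiffAt (hD.mem_nhds hz)))
  have dβ := ContDiffAt.da (contDiffAt_cx (hβ.contDiffAt (hD.mem_nhds hz)))
  have dχ := hχ.1.differentiable (by simp) z
  have de := ContDiffAt.da (es.contDiffAt (hD.mem_nhds hz))
  have e1 : ∀ a, dz a (cx fun z => Real.exp (φ z - β z)) z =
      (Real.exp (φ z - β z) : ℝ) * (dz a (cx φ) z - dz a (cx β) z) := fun a => by
    rw [dz_comp_real a (r := fun z => φ z - β z) (((hφ.sub hβ).contDiffAt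
      (hD.mem_nhds hz)).differentiableAt (by simp)) (Real.hasDerivAt_exp _), ← dz_sub a dφ dβ]
    congr 2; funext y; simp
  have e2 : ((Real.exp (φ z - β z) : ℝ) : ℂ) * (Real.exp (β z - φ z) : ℝ) = 1 := by
    rw [← ofReal_mul, ← Real.exp_add]; simp
  have e3 : ∀ a, dz a (fun z => cx χ z * cx (fun z => Real.exp (φ z - β z)) z * ψ z) z *
      (Real.exp (β z - φ z) : ℝ) = dz a ψ z * cx χ z +
        (dz a (cx χ) z + cx χ z * (dz a (cx φ) z - dz a (cx β) z)) * ψ z := fun a => by
    rw [dz_mul a (dχ.fun_mul de) (hψ.1.differentiable (by simp) z), dz_mul a dχ de, e1]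
    linear_combination (dz a ψ z * cx χ z +
      (dz a (cx χ) z + cx χ z * (dz a (cx φ) z - dz a (cx β) z)) * ψ z) * e2
  simp only [w3]
  linear_combination x j k z * e3 i - x i k z * e3 j + x i j z * e3 k

theorem div_le (γ : Fin N → ℂ) (x : Fin N → Fin N → ℂ) :
    ∑ k, ‖∑ j, γ j * x j k‖ ^ 2 ≤ (∑ j, ‖γ j‖ ^ 2) * ∑ j, ∑ k, ‖x j k‖ ^ 2 := by
  rw [Finset.sum_comm (f := fun j k => ‖x j k‖ ^ 2), Finset.mul_sum]
  refine Finset.sum_le_sum fun k _ => le_trans ?_ (Finset.sum_mul_sq_le_sq_mul_sq _ _ _)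
  refine pow_le_pow_left₀ (norm_nonneg _) ((norm_sum_le _ _).trans_eq ?_) 2
  simp only [norm_mul]

theorem w3_le (hq : StmtQA) (c g : ℝ) (hc : 0 ≤ c) (hc1 : c ≤ 1) (a b d : Fin N → ℂ)
    (x : Fin N → Fin N → ℂ) (Y : Fin N → Fin N → Fin N → ℂ) :
    ∑ i, ∑ j, ∑ k, ‖(c : ℂ) * (g : ℂ) * Y i j k + w3 (fun l => d l + c * (a l - b l)) x i j k -
        w3 a (fun l m => c * x l m) i j k‖ ^ 2 ≤
      18 * (c ^ 2 * (∑ l, ‖b l‖ ^ 2) * ∑ j, ∑ k, ‖x j k‖ ^ 2) +
        4 * (g ^ 2 * ∑ i, ∑ j, ∑ k, ‖Y i j k‖ ^ 2) +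
        36 * ((∑ l, ‖d l‖ ^ 2) * ∑ j, ∑ k, ‖x j k‖ ^ 2) := by
  have h := (hq N 0).2.2.2.2
  have e : ∀ i j k, ‖(c : ℂ) * (g : ℂ) * Y i j k + w3 (fun l => d l + c * (a l - b l)) x i j k -
      w3 a (fun l m => c * x l m) i j k‖ ^ 2 ≤
      2 * c ^ 2 * ‖w3 b x i j k‖ ^ 2 + 4 * g ^ 2 * ‖Y i j k‖ ^ 2 + 4 * ‖w3 d x i j k‖ ^ 2 := by
    intro i j k
    have : (c : ℂ) * (g : ℂ) * Y i j k + w3 (fun l => d l + c * (a l - b l)) x i j k -
        w3 a (fun l m => c * x l m) i j k =
        -(c * w3 b x i j k) + c * g * Y i j k + w3 d x i j k := by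
      simp only [w3]; ring
    rw [this]
    refine (norm3 _ _ _).trans ?_
    simp only [norm_neg, norm_mul, norm_real, Real.norm_eq_abs, mul_pow, sq_abs]
    have : c ^ 2 * (g ^ 2 * ‖Y i j k‖ ^ 2) ≤ g ^ 2 * ‖Y i j k‖ ^ 2 :=
      mul_le_of_le_one_left (by positivity) (pow_le_one₀ hc hc1)
    linarith
  refine (Finset.sum_le_sum fun i _ => Finset.sum_le_sum fun j _ =>
    Finset.sum_le_sum fun k _ => e i j k).trans ?_
  simp only [Finset.sum_add_distrib, ← Finset.mul_sum]
  have h1 := mul_le_mul_of_nonneg_left (h b x) (sq_nonneg c)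
  have h2 := h d x
  linarith

theorem h4 (L : Lv0) (hq : StmtQA) (h : StmtH1w) : StmtH4 := by
  intro N D p ψ m φ β c A χ x Y hN hd tw hx alt hS hY hW
  have hD := hd.opn
  have Dm := hD.measurableSet
  obtain ⟨m₀, hm₀, m₁, hm⟩ := hd.mb
  set n : E N → ℝ := fun z => (∑ j, ∑ k, ‖x j k z‖ ^ 2) * Real.exp (β z - φ z) with hn
  set T : E N → ℝ := fun z => (∑ i, ∑ j, ∑ k, ‖Y i j k z‖ ^ 2) * Real.exp (φ z - 2 * β z) with hT
  set d : ℕ → E N → ℝ := fun ν z => (∑ l, ‖dz l (cx (χ ν)) z‖ ^ 2) * Real.exp (-β z) with hd'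
  have n0 : ∀ z, 0 ≤ n z := fun z => by positivity
  have φc := tw.φs.continuousOn
  have βc := tw.βs.continuousOn
  have ni : IntegrableOn n D := by
    simp only [hn, Finset.sum_mul]
    refine integrable_finsetSum _ fun j _ => integrable_finsetSum _ fun k _ => ?_
    refine ((memLp_two_iff_integrable_sq_norm (hx j k).1).1 (hx j k)).congr
      (Eventually.of_forall fun z => ?_)
    simp only [norm_mul, norm_real, Real.norm_eq_abs, mul_pow, sq_abs]
    rw [← Real.exp_nat_mul]; congr 2; push_cast; ring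
  have Ti : IntegrableOn T D := by
    simp only [hT, Finset.sum_mul]
    refine integrable_finsetSum _ fun i _ => integrable_finsetSum _ fun j _ =>
      integrable_finsetSum _ fun k _ => ?_
    simp only [mul_comm _ (Real.exp _)]
    have hm := test_memLp (hY i j k)
    refine intK hD (hY i j k).2.1 (hY i j k).2.2
      (Real.continuous_exp.comp_continuousOn (φc.sub (continuousOn_const.mul βc)))
      ((memLp_two_iff_integrable_sq_norm hm.1).1 hm).integrableOn fun z hz => ?_
    simp [image_eq_zero_of_notMem_tsupport hz]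
  have χc : ∀ ν, Continuous (χ ν) := fun ν => continuous_re.comp (tw.tst ν).1.continuous
  have dzc : ∀ f : E N → ℝ, ContDiffOn ℝ ∞ (cx f) D → ∀ a,
      ContinuousOn (dz a (cx f)) D ∧ ContinuousOn (dzb a (cx f)) D := fun f hf a =>
    ⟨fun z hz => (contDiffAt_dz a (hf.contDiffAt (hD.mem_nhds hz))).continuousAt.continuousWithinAt,
      fun z hz =>
        (contDiffAt_dzb a (hf.contDiffAt (hD.mem_nhds hz))).continuousAt.continuousWithinAt⟩
  have cφ : ContDiffOn ℝ ∞ (cx φ) D := fun z hz =>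
    (contDiffAt_cx (tw.φs.contDiffAt (hD.mem_nhds hz))).contDiffWithinAt
  have cβ : ContDiffOn ℝ ∞ (cx β) D := fun z hz =>
    (contDiffAt_cx (tw.βs.contDiffAt (hD.mem_nhds hz))).contDiffWithinAt
  have eβ : ContinuousOn (fun z => Real.exp (-β z)) D :=
    Real.continuous_exp.comp_continuousOn βc.neg
  have i1 : ∀ ν, IntegrableOn (fun z => m z * χ ν z ^ 2 * n z) D := fun ν =>
    intK hD (tw.tst ν).2.1 (tw.tst ν).2.2 (hd.mc.mul ((χc ν).pow 2).continuousOn)
      (ni.mono_set (tw.tst ν).2.2) fun z hz => by simp [(off_supp hz).1]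
  have i3 : ∀ ν, IntegrableOn (fun z => d ν z * n z) D := fun ν =>
    intK hD (tw.tst ν).2.1 (tw.tst ν).2.2 ((continuousOn_finsetSum _ fun l _ =>
      (dzc _ (tw.tst ν).1.contDiffOn l).1.norm.pow 2).mul eβ)
      (ni.mono_set (tw.tst ν).2.2) fun z hz => by simp [hd', fun l => ((off_supp hz).2 l).1]
  have step : ∀ ν, ∫ z in D, m z * χ ν z ^ 2 * n z ≤
      8 / 3 * (∫ z in D, T z) + 28 * ∫ z in D, d ν z * n z := by
    intro ν
    have hχ := tw.tst ν
    have hK : IsCompact (tsupport (cx (χ ν))) := hχ.2.1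
    have mx : ∀ s : E N → ℂ, ContinuousOn s D → (∀ z ∉ tsupport (cx (χ ν)), s z = 0) → ∀ j k,
        MemLp (fun z => s z * x j k z) 2 volume := fun s hs s0 j k => by
      refine (memK hK hχ.2.2 (c := fun z => s z * (Real.exp ((φ z - β z) / 2) : ℝ))
        (hs.mul (continuous_ofReal.comp_continuousOn (Real.continuous_exp.comp_continuousOn
          ((φc.sub βc).div_const 2)))) (fun z hz => by rw [s0 z hz, zero_mul]) (hx j k)).ae_eq
        (Eventually.of_forall fun z => ?_)
      have : ((Real.exp ((φ z - β z) / 2) : ℝ) : ℂ) * (Real.exp ((β z - φ z) / 2) : ℝ) = 1 := by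
        rw [← ofReal_mul, ← Real.exp_add, ← add_div]; simp
      linear_combination s z * x j k z * this
    have cχ := hχ.1.continuous.continuousOn (s := D)
    have z0 : ∀ z ∉ tsupport (cx (χ ν)), cx (χ ν) z = 0 := fun z hz => by simp [(off_supp hz).1]
    have m1 := mx _ cχ z0
    have m2 := fun a => mx _ (dzc _ hχ.1.contDiffOn a).2 fun z hz => ((off_supp hz).2 a).2
    have m3 := fun a => mx (fun z => dz a (cx (χ ν)) z +
        cx (χ ν) z * (dz a (cx φ) z - dz a (cx β) z))
      ((dzc _ hχ.1.contDiffOn a).1.add (cχ.mul ((dzc _ cφ a).1.sub (dzc _ cβ a).1)))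
      fun z hz => by simp [((off_supp hz).2 a).1, (off_supp hz).1]
    have m4 := fun i j k => memK hK hχ.2.2
      (c := fun z => cx (χ ν) z * (Real.exp (φ z - β z) : ℝ))
      (cχ.mul (continuous_ofReal.comp_continuousOn (Real.continuous_exp.comp_continuousOn
        (φc.sub βc)))) (fun z hz => by rw [z0 z hz, zero_mul]) ((test_memLp (hY i j k)).restrict D)
    have hx1 : ∀ j k, MemLp (fun z => cx (χ ν) z * x j k z) 2 volume ∧
        ∀ z ∉ tsupport (cx (χ ν)), cx (χ ν) z * x j k z = 0 :=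
      fun j k => ⟨m1 j k, fun z hz => by rw [z0 z hz, zero_mul]⟩
    have H := fun a1 a2 a3 => h N D _ φ _ _ _ hN hD hd.ne0 hK hχ.2.2 tw.φs hx1 a1 a2 a3
      (w3_cut L hD hd.ne0 hχ tw.φs tw.βs hW m1 m3 m4) (ws_cut L hD hd.ne0 hχ hS m1 m2)
    replace H := H (fun j k z => by rw [alt j k z, mul_neg])
      (fun i j k => ⟨(m4 i j k).add (memLp_w3 m3 i j k), fun z hz => by
        simp [w3, fun a => ((off_supp hz).2 a).1, z0 z hz]⟩)
      (fun k => ⟨memLp_finsetSum _ fun j _ => m2 j j k, fun z hz => by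
        simp [fun a => ((off_supp hz).2 a).2]⟩)
    set b : E N → ℝ := fun z => χ ν z ^ 2 * (∑ l, ‖dz l (cx β) z‖ ^ 2) * Real.exp (-β z) with hb
    have i2 : IntegrableOn (fun z => b z * n z) D :=
      intK hD hK hχ.2.2 ((((χc ν).pow 2).continuousOn.mul (continuousOn_finsetSum _ fun l _ =>
        (dzc _ cβ l).1.norm.pow 2)).mul eβ) (ni.mono_set hχ.2.2)
        fun z hz => by simp [hb, (off_supp hz).1]
    have ee : ∀ z, Real.exp (-φ z) = Real.exp (-β z) * Real.exp (β z - φ z) := fun z => by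
      rw [← Real.exp_add]; congr 1; ring
    have a1 := setIntegral_mono_on ((i1 ν).const_mul (1 / 2) |>.add (i2.const_mul 6))
      (qq_int hD hK hχ.2.2 tw.φs hx1) Dm fun z hz => by
        have := tw.Q z hz (fun j k => cx (χ ν) z * x j k z) fun j k => by rw [alt j k z, mul_neg]
        refine le_trans (le_of_eq ?_) (mul_le_mul_of_nonneg_right this (Real.exp_pos _).le)
        have e : Real.exp (β z - φ z) = Real.exp (β z) * Real.exp (-φ z) := by
          rw [← Real.exp_add]; rfl
        have e' : Real.exp (-β z) * Real.exp (β z) = 1 := by rw [← Real.exp_add]; simp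
        simp only [Pi.add_apply, norm_mul, norm_real, Real.norm_eq_abs, mul_pow, sq_abs,
          ← Finset.mul_sum, hb, hn, e]
        linear_combination (6 * χ ν z ^ 2 * (∑ l, ‖dz l (cx β) z‖ ^ 2) *
          (∑ j, ∑ k, ‖x j k z‖ ^ 2) * Real.exp (-φ z)) * e'
    have a2 := H.trans <| add_le_add (mul_le_mul_of_nonneg_left (integral_mono_of_nonneg
      (Eventually.of_forall fun z => by positivity)
      (((i2.const_mul 18).add (Ti.const_mul 4)).add ((i3 ν).const_mul 36))
      (Eventually.of_forall fun z => by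
        refine (mul_le_mul_of_nonneg_right (w3_le hq (χ ν z) (Real.exp (φ z - β z)) (tw.bd ν z).1
          (tw.bd ν z).2 (fun a => dz a (cx φ) z) (fun a => dz a (cx β) z)
          (fun a => dz a (cx (χ ν)) z) (fun j k => x j k z) fun i j k => Y i j k z)
          (Real.exp_pos (-φ z)).le).trans_eq ?_
        have e : Real.exp (φ z - 2 * β z) = Real.exp (φ z - β z) ^ 2 * Real.exp (-φ z) := by
          rw [sq, ← Real.exp_add, ← Real.exp_add]; congr 1; ring
        simp only [Pi.add_apply, hb, hn, hT, hd', e]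
        rw [ee z]; ring)) (by norm_num)) (mul_le_mul_of_nonneg_left (integral_mono_of_nonneg
      (Eventually.of_forall fun z => by positivity) (i3 ν)
      (Eventually.of_forall fun z => by
        refine (mul_le_mul_of_nonneg_right (div_le (fun a => dzb a (cx (χ ν)) z) fun j k => x j k z)
          (Real.exp_pos (-φ z)).le).trans_eq ?_
        simp only [hn, hd', dzb_cx, RCLike.norm_conj]
        rw [ee z]; ring)) (by norm_num))
    rw [integral_add' ((i1 ν).const_mul _) (i2.const_mul _), integral_const_mul,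
      integral_const_mul] at a1
    rw [integral_add' ((i2.const_mul _).add (Ti.const_mul _)) ((i3 ν).const_mul _),
      integral_add' (i2.const_mul _) (Ti.const_mul _), integral_const_mul, integral_const_mul,
      integral_const_mul] at a2
    linarith
  have l1 : Tendsto (fun ν => ∫ z in D, m z * χ ν z ^ 2 * n z) atTop (𝓝 (∫ z in D, m z * n z)) := by
    refine tendsto_integral_of_dominated_convergence (fun z => m₁ * n z)
      (fun ν => (i1 ν).1) (ni.const_mul _) (fun ν => ae_restrict_of_forall_mem Dm fun z hz => ?_)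
      (ae_restrict_of_forall_mem Dm fun z hz => tendsto_const_nhds.congr' ?_)
    · have h0 : 0 ≤ m z := hm₀.le.trans (hm z hz).1
      rw [Real.norm_of_nonneg (mul_nonneg (by positivity) (n0 z))]
      exact mul_le_mul_of_nonneg_right ((mul_le_of_le_one_right h0
        (pow_le_one₀ (tw.bd ν z).1 (tw.bd ν z).2)).trans (hm z hz).2) (n0 z)
    · filter_upwards [tw.one z hz] with ν hν
      rw [hν.self_of_nhds]; ring
  have l2 : Tendsto (fun ν => ∫ z in D, d ν z * n z) atTop (𝓝 (∫ z in D, (0 : ℝ))) := by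
    refine tendsto_integral_of_dominated_convergence (fun z => N * A * n z)
      (fun ν => (i3 ν).1) (ni.const_mul _) (fun ν => ae_restrict_of_forall_mem Dm fun z hz => ?_)
      (ae_restrict_of_forall_mem Dm fun z hz => tendsto_const_nhds.congr' ?_)
    · rw [Real.norm_of_nonneg (mul_nonneg (by positivity) (n0 z))]
      refine mul_le_mul_of_nonneg_right ?_ (n0 z)
      have e' : Real.exp (β z) * Real.exp (-β z) = 1 := by rw [← Real.exp_add]; simp
      refine (mul_le_mul_of_nonneg_right (Finset.sum_le_sum fun l _ => tw.der ν l z hz)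
        (Real.exp_pos _).le).trans_eq ?_
      simp only [Finset.sum_const, Finset.card_univ, Fintype.card_fin, nsmul_eq_mul]
      linear_combination (N * A) * e'
    · filter_upwards [tw.one z hz] with ν hν
      have : cx (χ ν) =ᶠ[𝓝 z] fun _ => 1 := hν.mono fun y hy => by simp [hy]
      simp [hd', dz_congr this]
  have := le_of_tendsto_of_tendsto' l1 ((l2.const_mul 28).const_add (8 / 3 * ∫ z in D, T z)) step
  simpa [hn, mul_assoc] using this

end Pool.Agent.MP_fcd29e_an.H78
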